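import Pool.Agent.Lib_helper16.Meteor.OneFinal

/-!
# Recurrence of annihilating ballistic meteors

For every dimension `d ≥ 1` and every radius `ε > 0`, almost surely infinitely many meteors occupy
the origin at some time, and the origin is occupied at arbitrarily large times. No assumption on
the existence of the infinite process is needed; it exists almost surely (`ae_process_exists`).

Outline for `d ≥ 2`. Let `ρ(t)` be the probability that an additional meteor survives until `t`.
* The contact graph forces dead meteors to die in pairs. Resampling a large ball so that it contains
  a tight packing of meteors none of which ever touch each other shows `∑ 2^k ρ(2^k) = ∞`.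
* The collision rate of a meteor is bounded by pair survival probabilities, and survival until `t`
  only depends on meteors at distance `O(t)`; this gives a lower bound for the decay of `2^k ρ(2^k)`.
* A weighted second moment argument then shows that with probability at least `c > 0` the origin is
  visited after time `T` from a given set of directions, with `c` independent of the set and of `T`.
* Letting the set of directions shrink to one direction, all points of a ray are visited at
  arbitrarily late times with probability at least `c`; this event is shift invariant, so it is
  almost sure.

For `d = 1` the process is solved explicitly by matching brackets.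
-/

namespace Pool.Agent.Results.MP_dd21b1_pr.Recurrence

open MeasureTheory Pool.Agent.Meteor
open scoped ENNReal NNReal

/-- For all `d ≥ 1` and `ε > 0`: if the meteors (centres together with directions) form a Poisson
random set whose intensity is Lebesgue measure times the uniform distribution on the sphere, then
almost surely infinitely many meteors occupy the origin at some time, and the origin is occupied
at arbitrarily large times. -/
theorem result (d : ℕ) (hd : 1 ≤ d) (ε : ℝ) (hε : 0 < ε) {Ω : Type*} [MeasurableSpace Ω]
    (P : Measure Ω) [IsProbabilityMeasure P] (ξ : Ω → Set (Met d))
    (hξ : IsPoissonSet P ξ (intensity d)) :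
    ∀ᵐ ω ∂P, (visitors ε (ξ ω)).Infinite ∧
      ∀ T : ℝ≥0, ∃ t : ℝ≥0, T ≤ t ∧ ∃ x ∈ ξ ω, InfExistsAt ε (ξ ω) x t ∧ ‖pos x t‖ ≤ ε := by
  rcases Nat.lt_or_ge 1 d with h | h
  · have : NeZero d := ⟨by omega⟩
    filter_upwards [ae_late_ge_two hε h hξ] with ω hω
    exact ⟨visitors_infinite_of_late hω, hω⟩
  · obtain rfl : d = 1 := le_antisymm h hd
    have H' : PP P ξ (intensity 1) (Kd 1) := PP.of_poisson hξ
    filter_upwards [d_one hε hξ, H'.ae_LF] with ω hω hLF
    exact ⟨hω, late_of_visitors_infinite (fun R => finite_inBall hLF R) hω⟩

end Pool.Agent.Results.MP_dd21b1_pr.Recurrence
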